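import Pool.Agent.T6.H39.TR.Tuples

/-!
# Growth: a space with few products contains few elements of `V`

`V` is a space with the hyperplane property. For finite dimensional `A`, `F`:
`dim A * dim (F ∩ V) ≤ dim (A F) + dim A (dim A - 1)`.
-/

set_option autoImplicit false

namespace Pool.Agent.T6.H39.TR

open Module Finset
open Pool.Agent.HP778 (Hyper)

variable {k Ω : Type} [Field k] [Field Ω] [Algebra k Ω]

theorem fd_mul (A F : Submodule k Ω) [FiniteDimensional k A] [FiniteDimensional k F] :
    FiniteDimensional k (A * F : Submodule k Ω) := by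
  have h1 : A.FG := Module.Finite.iff_fg.mp inferInstance
  have h2 : F.FG := Module.Finite.iff_fg.mp inferInstance
  exact Module.Finite.iff_fg.mpr (h1.mul h2)

theorem fin_basis (U : Submodule k Ω) [FiniteDimensional k U] :
    ∃ b : Fin (finrank k U) → Ω, LinearIndependent k b ∧ ∀ i, b i ∈ U := by
  let b := Module.finBasis k U
  exact ⟨fun i => (b i : Ω), b.linearIndependent.map' U.subtype U.ker_subtype, fun i => (b i).2⟩

theorem grow {V : Submodule k Ω} (hV : Hyper V) (A F : Submodule k Ω) [FiniteDimensional k A]
    [FiniteDimensional k F] :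
    finrank k A * finrank k (F ⊓ V : Submodule k Ω) ≤
      finrank k (A * F : Submodule k Ω) + finrank k A * (finrank k A - 1) := by
  obtain ⟨b, hb, hbA⟩ := fin_basis A
  have hfd := fd_mul A F
  obtain ⟨h1, h2⟩ := RW_fd hV hb (A * F)
  let ψ : (Fin (finrank k A) → (F ⊓ V : Submodule k Ω)) →ₗ[k] RW V b (A * F) := {
    toFun := fun x => ⟨fun i => (x i : Ω), fun i => (x i).2.2, Submodule.sum_mem _ fun i _ =>
      Submodule.mul_mem_mul (hbA i) (x i).2.1⟩
    map_add' := fun x y => rfl
    map_smul' := fun c x => rfl }
  have hψ : Function.Injective ψ := by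
    intro x y hxy
    funext i
    apply Subtype.ext
    have h3 := congrArg (fun z : RW V b (A * F) => (z : Fin (finrank k A) → Ω) i) hxy
    exact h3
  have h3 := LinearMap.finrank_le_finrank_of_injective hψ
  rw [Module.finrank_pi_fintype, Finset.sum_const, Finset.card_univ, Fintype.card_fin,
    smul_eq_mul] at h3
  omega

end Pool.Agent.T6.H39.TR
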