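import Pool.Agent.T6.H39.TR.Tuples

/-!
# Linear disjointness modulo a finite dimensional space

Let `V` be a space with the hyperplane property and `U` a finite dimensional space with basis
`b_1, ..., b_d`. There is a subspace `W` of `V` of dimension at most `d ^ 2 (d - 1)`, such that
`∑ b_j y_j ∈ U W`, `y_j ∈ V`, is possible only if `y_j ∈ W` for all `j`.
-/

set_option autoImplicit false

namespace Pool.Agent.T6.H39.TR

open Module Finset
open Pool.Agent.HP778 (Hyper)

variable {k Ω : Type} [Field k] [Field Ω] [Algebra k Ω]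

theorem Hyper.mono' {V V' : Submodule k Ω} (h : V' ≤ V) (hV : Hyper V) : Hyper V' :=
  fun κ _ d x a hx ha hxa hcol => hV κ d x a hx (fun i j => h (ha i j)) hxa hcol

/-- the sum of the coordinate spaces -/
def ent {d : ℕ} (R : Submodule k (Fin d → Ω)) : Submodule k Ω :=
  LinearMap.range (∑ j, (LinearMap.proj j : (Fin d → Ω) →ₗ[k] Ω) ∘ₗ R.subtype ∘ₗ
    (LinearMap.proj j : (Fin d → R) →ₗ[k] R))

theorem ent_mem {d : ℕ} {R : Submodule k (Fin d → Ω)} {A : Fin d → Ω} (hA : A ∈ R) (j : Fin d) :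
    A j ∈ ent R := by
  classical
  refine ⟨Pi.single j ⟨A, hA⟩, ?_⟩
  rw [LinearMap.sum_apply, Finset.sum_eq_single j]
  · simp
  · intro i _ hij
    simp [Pi.single_eq_of_ne hij]
  · intro h
    exact absurd (Finset.mem_univ _) h

theorem ent_le {d : ℕ} {R : Submodule k (Fin d → Ω)} {V : Submodule k Ω}
    (h : ∀ A ∈ R, ∀ j, A j ∈ V) : ent R ≤ V := by
  rintro _ ⟨A, rfl⟩
  rw [LinearMap.sum_apply]
  exact Submodule.sum_mem _ fun j _ => h _ (A j).2 j

instance {d : ℕ} (R : Submodule k (Fin d → Ω)) [FiniteDimensional k R] :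
    FiniteDimensional k (ent R) := by
  unfold ent; infer_instance

theorem finrank_ent_le {d : ℕ} (R : Submodule k (Fin d → Ω)) [FiniteDimensional k R] :
    finrank k (ent R) ≤ d * finrank k R := by
  unfold ent
  refine (LinearMap.finrank_range_le _).trans (le_of_eq ?_)
  rw [Module.finrank_pi_fintype, Finset.sum_const, Finset.card_univ, Fintype.card_fin, smul_eq_mul]

/-- the elements of `U W` -/
theorem mem_mul {d : ℕ} {b : Fin d → Ω} {W : Submodule k Ω} {z : Ω}
    (hz : z ∈ Submodule.span k (Set.range b) * W) :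
    ∃ w : Fin d → Ω, (∀ j, w j ∈ W) ∧ z = ∑ j, b j * w j := by
  refine Submodule.mul_induction_on hz ?_ ?_
  · intro u hu w hw
    obtain ⟨c, hc⟩ := (Submodule.mem_span_range_iff_exists_fun k).mp hu
    exact ⟨fun j => c j • w, fun j => W.smul_mem _ hw, expand c u w hc.symm⟩
  · rintro x y ⟨w, hw, rfl⟩ ⟨w', hw', rfl⟩
    refine ⟨w + w', fun j => W.add_mem (hw j) (hw' j), ?_⟩
    simp only [Pi.add_apply, mul_add, Finset.sum_add_distrib]

theorem mul_mem' {d : ℕ} {b : Fin d → Ω} {W : Submodule k Ω} {w : Fin d → Ω}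
    (hw : ∀ j, w j ∈ W) : ∑ j, b j * w j ∈ Submodule.span k (Set.range b) * W :=
  Submodule.sum_mem _ fun j _ => Submodule.mul_mem_mul (Submodule.subset_span ⟨j, rfl⟩) (hw j)

/-- **Linear disjointness modulo `W`**, for a basis -/
theorem disj_basis {V : Submodule k Ω} {d : ℕ} {b : Fin d → Ω}
    {y : Fin d → Ω} (hy : ∀ j, y j ∈ V)
    (h : ∑ j, b j * y j ∈ Submodule.span k (Set.range b) * ent (RW V b ⊥)) (j : Fin d) :
    y j ∈ ent (RW V b ⊥) := by
  obtain ⟨w, hw, he⟩ := mem_mul h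
  have hV : ent (RW V b ⊥) ≤ V := ent_le fun A hA j => hA.1 j
  have h1 : (fun j => y j - w j) ∈ RW V b ⊥ := by
    refine ⟨fun j => V.sub_mem (hy j) (hV (hw j)), ?_⟩
    rw [Submodule.mem_bot]
    simp only [mul_sub, Finset.sum_sub_distrib]
    rw [he, sub_self]
  have h2 := ent_mem h1 j
  have h3 := Submodule.add_mem _ h2 (hw j)
  simpa using h3

/-- **Linear disjointness modulo `W`.** The `y i ∈ V` are independent modulo `W`, the `x i` are in the
span of `b`; then `∑ x i * y i ∈ U W` only if all the `x i` are `0`. -/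
theorem disj_gen {V : Submodule k Ω} {d : ℕ} {b : Fin d → Ω} {κ : Type}
    [Fintype κ] {x y : κ → Ω} (hy : ∀ i, y i ∈ V)
    (hli : ∀ c : κ → k, ∑ i, c i • y i ∈ ent (RW V b ⊥) → c = 0)
    (hx : ∀ i, x i ∈ Submodule.span k (Set.range b))
    (h : ∑ i, x i * y i ∈ Submodule.span k (Set.range b) * ent (RW V b ⊥)) : x = 0 := by
  choose c hc using fun i => (Submodule.mem_span_range_iff_exists_fun k).mp (hx i)
  have h1 : ∑ i, x i * y i = ∑ j, b j * ∑ i, c i j • y i := by
    simp only [Finset.mul_sum]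
    rw [Finset.sum_comm]
    exact Finset.sum_congr rfl fun i _ => expand (c i) (x i) (y i) (hc i).symm
  rw [h1] at h
  have h2 := disj_basis (fun j => V.sum_mem fun i _ => V.smul_mem _ (hy i)) h
  funext i
  rw [← hc i, Pi.zero_apply]
  refine Finset.sum_eq_zero fun j _ => ?_
  have h3 := hli _ (h2 j)
  rw [congrFun h3 i, Pi.zero_apply, zero_smul]

/-- If `1` is in the span of `b`, the `y i ∈ V` are independent modulo `W`, `P i`, `Q ≠ 0` are in the
span of `b`, and not all `P i` are in `k Q`, then `∑ (P i / Q) y i` is not in `V`, and `∑ P i * y i` is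
not in `Q V + U W`. -/
theorem disj_quot {V : Submodule k Ω} {d : ℕ} {b : Fin d → Ω} {κ : Type}
    [Fintype κ] {P y : κ → Ω} {Q : Ω} (hy : ∀ i, y i ∈ V)
    (hli : ∀ c : κ → k, ∑ i, c i • y i ∈ ent (RW V b ⊥) → c = 0)
    (hP : ∀ i, P i ∈ Submodule.span k (Set.range b))
    (hQ : Q ∈ Submodule.span k (Set.range b)) (hQ0 : Q ≠ 0)
    {i₀ : κ} (hi₀ : ∀ a : k, algebraMap k Ω a * Q ≠ P i₀) {v u : Ω} (hv : v ∈ V)
    (hu : u ∈ Submodule.span k (Set.range b) * ent (RW V b ⊥)) :
    ∑ i, P i * y i ≠ Q * v + u := by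
  intro h
  choose c hc using fun i => (Submodule.mem_span_range_iff_exists_fun k).mp (hP i)
  obtain ⟨q, hq⟩ := (Submodule.mem_span_range_iff_exists_fun k).mp hQ
  obtain ⟨l₀, hl₀⟩ : ∃ l₀, q l₀ ≠ 0 := by
    by_contra hcon
    push Not at hcon
    apply hQ0
    rw [← hq]
    exact Finset.sum_eq_zero fun j _ => by rw [hcon j, zero_smul]
  have h1 : ∑ j, b j * (∑ i, c i j • y i - q j • v) = u := by
    have h2 : ∑ i, P i * y i = ∑ j, b j * ∑ i, c i j • y i := by
      simp only [Finset.mul_sum]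
      rw [Finset.sum_comm]
      exact Finset.sum_congr rfl fun i _ => expand (c i) (P i) (y i) (hc i).symm
    simp only [mul_sub, Finset.sum_sub_distrib]
    rw [← h2, ← expand q Q v hq.symm, h]
    ring
  have h2 := disj_basis (V := V) (b := b) (y := fun j => ∑ i, c i j • y i - q j • v)
    (fun j => V.sub_mem (V.sum_mem fun i _ => V.smul_mem _ (hy i)) (V.smul_mem _ hv))
    (by rw [h1]; exact hu)
  have h3 : ∀ j, ∑ i, (q l₀ * c i j - q j * c i l₀) • y i ∈ ent (RW V b ⊥) := by
    intro j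
    have h4 : ∑ i, (q l₀ * c i j - q j * c i l₀) • y i =
        q l₀ • (∑ i, c i j • y i - q j • v) - q j • (∑ i, c i l₀ • y i - q l₀ • v) := by
      have h5 : ∑ i, (q l₀ * c i j - q j * c i l₀) • y i =
          q l₀ • ∑ i, c i j • y i - q j • ∑ i, c i l₀ • y i := by
        rw [Finset.smul_sum, Finset.smul_sum, ← Finset.sum_sub_distrib]
        refine Finset.sum_congr rfl fun i _ => ?_
        rw [sub_smul, smul_smul, smul_smul]
      rw [h5, smul_sub, smul_sub, smul_smul, smul_smul, mul_comm (q j) (q l₀)]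
      abel
    rw [h4]
    exact Submodule.sub_mem _ (Submodule.smul_mem _ _ (h2 j)) (Submodule.smul_mem _ _ (h2 l₀))
  apply hi₀ (c i₀ l₀ / q l₀)
  rw [← hq, ← hc i₀, Finset.mul_sum]
  refine Finset.sum_congr rfl fun j _ => ?_
  have h6 := congrFun (hli _ (h3 j)) i₀
  simp only [Pi.zero_apply, sub_eq_zero] at h6
  rw [← Algebra.smul_def, smul_smul]
  congr 1
  field_simp
  rw [mul_comm, ← h6]

end Pool.Agent.T6.H39.TR
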