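import Pool.Agent.HP778.Count

/-!
# Sets of integers of bounded multiplicative rank, and integers composed of few primes

A set of positive integers `≤ N` whose logarithms span a space of dimension at most `r` over the
rational numbers is at most as large as the set of the integers `≤ N` composed of suitable `r` primes,
which is estimated by Rankin's method.
-/

set_option autoImplicit false

namespace Pool.Agent.T6.H39.TR

open Module Finset

/-- the integers between `1` and `N` all of whose prime factors are in `s` -/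
def comp (s : Finset ℕ) (N : ℕ) : Finset ℕ :=
  (Finset.Icc 1 N).filter fun m => ∀ p : ℕ, p ∈ m.primeFactors → p ∈ s

/-- the part of `n` composed of the primes in `s` -/
noncomputable def part (s : Finset ℕ) (n : ℕ) : ℕ :=
  (n.factorization.filter (· ∈ s)).prod (· ^ ·)

theorem filter_le (s : Finset ℕ) (n : ℕ) : n.factorization.filter (· ∈ s) ≤ n.factorization := by
  intro p
  rw [Finsupp.filter_apply]
  split_ifs
  · exact le_rfl
  · exact Nat.zero_le _

theorem part_fact (s : Finset ℕ) (n : ℕ) :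
    (part s n).factorization = n.factorization.filter (· ∈ s) :=
  Nat.factorization_prod_pow_eq_self_of_le_factorization (filter_le s n)

theorem part_dvd (s : Finset ℕ) (n : ℕ) : part s n ∣ n :=
  Nat.prod_pow_dvd_of_le_factorization (filter_le s n)

theorem part_mem (s : Finset ℕ) {n N : ℕ} (hn : 1 ≤ n) (hN : n ≤ N) : part s n ∈ comp s N := by
  have h1 := part_dvd s n
  have h2 : part s n ≠ 0 := fun h => by
    rw [h, zero_dvd_iff] at h1
    omega
  rw [comp, Finset.mem_filter, Finset.mem_Icc]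
  refine ⟨⟨Nat.one_le_iff_ne_zero.mpr h2, (Nat.le_of_dvd (by omega) h1).trans hN⟩, ?_⟩
  intro p hp
  rw [← Nat.support_factorization, part_fact, Finsupp.support_filter] at hp
  exact (Finset.mem_filter.mp hp).2

/-- **Transfer.** -/
theorem count_comp {N r : ℕ} (S : Finset ℕ) (hS : ∀ n ∈ S, 1 ≤ n ∧ n ≤ N)
    (h : ∀ (m : ℕ) (n : Fin m → ℕ), (∀ i, n i ∈ S) →
      LinearIndependent ℚ (fun i => ((Real.log (n i) : ℝ) : ℂ)) → m ≤ r) :
    ∃ s : Finset ℕ, s.card ≤ r ∧ (∀ p ∈ s, p.Prime) ∧ S.card ≤ (comp s N).card := by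
  classical
  let D : Set (Fin (N + 1) → ℚ) := (fun n => HP778.vec N n) '' (S : Set ℕ)
  have hDfin : D.Finite := S.finite_toSet.image _
  obtain ⟨b, hbD, hspan, hbli⟩ := exists_linearIndependent ℚ D
  have hbfin : b.Finite := hDfin.subset hbD
  have : Fintype b := hbfin.fintype
  set W := Submodule.span ℚ D with hW
  have hWp : ∀ w ∈ W, ∀ p : Fin (N + 1), ¬ (p : ℕ).Prime → w p = 0 := by
    intro w hw p hp
    have h1 : W ≤ LinearMap.ker (LinearMap.proj p : (Fin (N + 1) → ℚ) →ₗ[ℚ] ℚ) := by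
      rw [hW, Submodule.span_le]
      rintro _ ⟨n, _, rfl⟩
      exact HP778.vec_nonprime p hp
    exact h1 hw
  have hfr : finrank ℚ W ≤ r := by
    have hfc := finrank_span_eq_card hbli
    rw [Subtype.range_coe] at hfc
    rw [← hspan, hfc]
    let e := Fintype.equivFin b
    choose n hnS hn using fun i : Fin (Fintype.card b) => hbD (e.symm i).2
    refine h (Fintype.card b) n hnS ?_
    rw [Fintype.linearIndependent_iff]
    intro g hg
    have h2 : HP778.Lg N (∑ i, g i • ((e.symm i : b) : Fin (N + 1) → ℚ)) = 0 := by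
      rw [map_sum, ← hg]
      refine Finset.sum_congr rfl fun i _ => ?_
      rw [map_smul]
      congr 1
      have h3 : ((e.symm i : b) : Fin (N + 1) → ℚ) = HP778.vec N (n i) := (hn i).symm
      rw [h3, HP778.Lg_vec (hS _ (hnS i)).2]
    have h4 := HP778.Lg_inj (fun p hp => by
      rw [Finset.sum_apply]
      refine Finset.sum_eq_zero fun i _ => ?_
      rw [Pi.smul_apply, hWp _ (Submodule.subset_span (hbD (e.symm i).2)) p hp, smul_zero]) h2
    exact Fintype.linearIndependent_iff.mp (hbli.comp e.symm e.symm.injective) g h4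
  obtain ⟨s, hs, hsep⟩ := HP778.exists_coords W
  let s' : Finset ℕ := (Finset.filter (fun p : Fin (N + 1) => (p : ℕ).Prime) s).image
    (fun p : Fin (N + 1) => (p : ℕ))
  have hs' : ∀ p ∈ s, (p : ℕ).Prime → (p : ℕ) ∈ s' := fun p hp hpp =>
    Finset.mem_image.mpr ⟨p, Finset.mem_filter.mpr ⟨hp, hpp⟩, rfl⟩
  refine ⟨s', ?_, ?_, ?_⟩
  · exact (Finset.card_image_le.trans (Finset.card_filter_le _ _)).trans (hs.trans hfr)
  · intro p hp
    obtain ⟨q, hq, rfl⟩ := Finset.mem_image.mp hp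
    exact (Finset.mem_filter.mp hq).2
  · refine Finset.card_le_card_of_injOn (part s') ?_ ?_
    · intro n hn
      obtain ⟨h1, h2⟩ := hS n hn
      exact part_mem s' h1 h2
    · intro n hn n' hn' heq
      have heq' : n.factorization.filter (· ∈ s') = n'.factorization.filter (· ∈ s') := by
        rw [← part_fact, ← part_fact, heq]
      have h1 : HP778.vec N n - HP778.vec N n' ∈ W :=
        W.sub_mem (Submodule.subset_span ⟨n, hn, rfl⟩) (Submodule.subset_span ⟨n', hn', rfl⟩)
      have h3 := hsep _ h1 (fun p hp => by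
        rw [Pi.sub_apply, sub_eq_zero]
        by_cases hpp : (p : ℕ).Prime
        · have h4 := DFunLike.congr_fun heq' (p : ℕ)
          rw [Finsupp.filter_apply_pos _ _ (hs' p hp hpp),
            Finsupp.filter_apply_pos _ _ (hs' p hp hpp)] at h4
          rw [HP778.vec, HP778.vec]
          exact_mod_cast h4
        · rw [HP778.vec_nonprime p hpp, HP778.vec_nonprime p hpp])
      obtain ⟨hn1, hnN⟩ := hS n hn
      obtain ⟨hn1', hnN'⟩ := hS n' hn'
      apply Nat.eq_of_factorization_eq (by omega) (by omega)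
      intro p
      by_cases hp : p < N + 1
      · have h4 := congrFun h3 ⟨p, hp⟩
        rw [Pi.sub_apply, Pi.zero_apply, sub_eq_zero, HP778.vec, HP778.vec] at h4
        exact_mod_cast h4
      · rw [Nat.factorization_eq_zero_of_lt (by omega), Nat.factorization_eq_zero_of_lt (by omega)]

/-! ### Rankin's method -/

theorem rpow_step {η : ℝ} (hη : 0 < η) (hη1 : η ≤ 1) (k : ℕ) (hk : 1 ≤ k) :
    (k : ℝ) ^ (η - 1) ≤ ((k : ℝ) ^ η - ((k : ℝ) - 1) ^ η) / η := by
  have hk0 : (0 : ℝ) < k := by exact_mod_cast hk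
  have hk1 : (1 : ℝ) ≤ k := by exact_mod_cast hk
  have h1 : (1 + (-1 / (k : ℝ))) ^ η ≤ 1 + η * (-1 / (k : ℝ)) := by
    apply rpow_one_add_le_one_add_mul_self _ hη.le hη1
    rw [le_div_iff₀ hk0]
    linarith
  have h2 : ((k : ℝ) - 1) ^ η = (k : ℝ) ^ η * (1 + (-1 / (k : ℝ))) ^ η := by
    rw [← Real.mul_rpow hk0.le]
    · congr 1
      field_simp
      ring
    · have : 1 / (k : ℝ) ≤ 1 := by
        rw [div_le_one hk0]; exact hk1
      have h3 : -1 / (k : ℝ) = -(1 / (k : ℝ)) := by ring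
      rw [h3]
      linarith
  have h3 : (k : ℝ) ^ (η - 1) = (k : ℝ) ^ η / k := by
    rw [Real.rpow_sub hk0, Real.rpow_one]
  rw [le_div_iff₀ hη, h3, h2]
  have h4 : 0 < (k : ℝ) ^ η := Real.rpow_pos_of_pos hk0 _
  have h5 := mul_le_mul_of_nonneg_left h1 h4.le
  have h6 : (k : ℝ) ^ η * (1 + η * (-1 / (k : ℝ))) = (k : ℝ) ^ η - (k : ℝ) ^ η / k * η := by
    field_simp
    ring
  linarith

/-- the sum of `p ^ (η - 1)` over a finite set of integers `p ≥ 2` -/
theorem sum_rpow_le {η : ℝ} (hη : 0 < η) (hη1 : η ≤ 1) (k : ℕ) :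
    ∀ s : Finset ℕ, s.card = k → (∀ p ∈ s, 2 ≤ p) →
      ∑ p ∈ s, (p : ℝ) ^ (η - 1) ≤ (((k : ℝ) + 1) ^ η - 1) / η := by
  induction k with
  | zero =>
    intro s hs _
    rw [Finset.card_eq_zero.mp hs]
    simp
  | succ k ih =>
    intro s hs hs2
    have hne : s.Nonempty := Finset.card_pos.mp (by omega)
    set M := s.max' hne with hM
    have hMs : M ∈ s := Finset.max'_mem _ _
    have hMk : k + 2 ≤ M := by
      have h1 : s ⊆ Finset.Icc 2 M := fun p hp =>
        Finset.mem_Icc.mpr ⟨hs2 p hp, Finset.le_max' _ _ hp⟩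
      have h2 := Finset.card_le_card h1
      rw [Nat.card_Icc, hs] at h2
      omega
    have h1 := ih (s.erase M) (by rw [Finset.card_erase_of_mem hMs, hs]; rfl)
      (fun p hp => hs2 p (Finset.mem_of_mem_erase hp))
    rw [← Finset.add_sum_erase s _ hMs]
    have h2 : (M : ℝ) ^ (η - 1) ≤ ((k + 2 : ℕ) : ℝ) ^ (η - 1) := by
      apply Real.rpow_le_rpow_of_nonpos
      · positivity
      · exact_mod_cast hMk
      · linarith
    have h3 := rpow_step hη hη1 (k + 2) (by omega)
    have h4 : (((k + 2 : ℕ) : ℝ) - 1) = (k : ℝ) + 1 := by push_cast; ring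
    have h5 : (((k + 2 : ℕ) : ℝ)) = ((k + 1 : ℕ) : ℝ) + 1 := by push_cast; ring
    rw [h4] at h3
    rw [h5] at h2 h3
    have h6 : ((((k + 1 : ℕ) : ℝ) + 1) ^ η - 1) / η =
        ((((k + 1 : ℕ) : ℝ) + 1) ^ η - ((k : ℝ) + 1) ^ η) / η + (((k : ℝ) + 1) ^ η - 1) / η := by
      ring
    rw [h6]
    linarith

theorem inv_one_sub_le {x : ℝ} (hx0 : 0 ≤ x) (hx : x ≤ 3 / 4) : (1 - x)⁻¹ ≤ Real.exp (4 * x) := by
  have h1 : (1 - x)⁻¹ = 1 + x * (1 - x)⁻¹ := by
    have : (1 - x) ≠ 0 := by linarith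
    field_simp
    ring
  have h2 : (1 - x)⁻¹ ≤ 4 := by
    rw [inv_le_comm₀ (by linarith) (by norm_num)]
    linarith
  calc (1 - x)⁻¹ = 1 + x * (1 - x)⁻¹ := h1
    _ ≤ 1 + x * 4 := by
      have := mul_le_mul_of_nonneg_left h2 hx0
      linarith
    _ = 4 * x + 1 := by ring
    _ ≤ Real.exp (4 * x) := Real.add_one_le_exp _

/-- the completely multiplicative function `n ↦ n ^ (η - 1)` -/
noncomputable def fη (η : ℝ) : ℕ →* ℝ where
  toFun n := (n : ℝ) ^ (η - 1)
  map_one' := by simp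
  map_mul' m n := by
    push_cast
    exact Real.mul_rpow (Nat.cast_nonneg m) (Nat.cast_nonneg n)

theorem two_rpow_le {η : ℝ} (hη : η ≤ 1 / 2) {p : ℕ} (hp : 2 ≤ p) :
    (p : ℝ) ^ (η - 1) ≤ 3 / 4 := by
  have h1 : (p : ℝ) ^ (η - 1) ≤ (2 : ℝ) ^ (η - 1) := by
    apply Real.rpow_le_rpow_of_nonpos (by norm_num) (by exact_mod_cast hp) (by linarith)
  have h2 : (2 : ℝ) ^ (η - 1) ≤ (2 : ℝ) ^ (-(1 / 2) : ℝ) := by
    apply Real.rpow_le_rpow_of_exponent_le (by norm_num)
    linarith
  have h3 : (2 : ℝ) ^ (-(1 / 2) : ℝ) ≤ 3 / 4 := by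
    rw [Real.rpow_neg (by norm_num), ← Real.sqrt_eq_rpow, inv_le_comm₀ (by positivity) (by norm_num)]
    rw [Real.le_sqrt (by norm_num) (by norm_num)]
    norm_num
  linarith

/-- **Rankin's bound** for the number of integers composed of few primes. -/
theorem comp_le {N r : ℕ} (s : Finset ℕ) (hs : s.card ≤ r) (hsp : ∀ p ∈ s, p.Prime) {η : ℝ}
    (hη : 0 < η) (hη2 : η ≤ 1 / 2) :
    ((comp s N).card : ℝ) ≤ (N : ℝ) ^ (1 - η) * Real.exp (4 * ((((r : ℝ) + 1) ^ η - 1) / η)) := by
  classical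
  have hf : ∀ n : ℕ, fη η n = (n : ℝ) ^ (η - 1) := fun _ => rfl
  have hE := EulerProduct.summable_and_hasSum_factoredNumbers_prod_filter_prime_geometric
    (f := fη η) (by
      intro p hp
      rw [hf, Real.norm_of_nonneg (Real.rpow_nonneg (Nat.cast_nonneg _) _)]
      have := two_rpow_le hη2 hp.two_le
      linarith) s
  have hfil : s.filter (fun p => p.Prime) = s := Finset.filter_true_of_mem hsp
  rw [hfil] at hE
  -- the sum over the elements
  have h1 : ∑ m ∈ comp s N, (m : ℝ) ^ (η - 1) ≤ ∏ p ∈ s, (1 - fη η p)⁻¹ := by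
    have hmem : ∀ m ∈ comp s N, m ∈ Nat.factoredNumbers s := by
      intro m hm
      rw [comp, Finset.mem_filter, Finset.mem_Icc] at hm
      exact Nat.mem_factoredNumbers_of_primeFactors_subset (by omega) hm.2
    have h2 : ∑ m ∈ comp s N, (m : ℝ) ^ (η - 1) =
        ∑ m ∈ (comp s N).attach, fη η ((⟨m.1, hmem m.1 m.2⟩ : Nat.factoredNumbers s) : ℕ) := by
      rw [← Finset.sum_attach]
      rfl
    have h3 : ∑ m ∈ (comp s N).attach,
        fη η ((⟨m.1, hmem m.1 m.2⟩ : Nat.factoredNumbers s) : ℕ) =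
        ∑ m ∈ (comp s N).attach.image
          (fun m => (⟨m.1, hmem m.1 m.2⟩ : Nat.factoredNumbers s)), fη η (m : ℕ) := by
      rw [Finset.sum_image]
      intro a _ b _ hab
      apply Subtype.ext
      exact congrArg (fun z : Nat.factoredNumbers s => (z : ℕ)) hab
    rw [h2, h3]
    refine sum_le_hasSum _ ?_ hE.2
    intro m _
    rw [hf]
    exact Real.rpow_nonneg (Nat.cast_nonneg _) _
  -- the product
  have h2 : ∏ p ∈ s, (1 - fη η p)⁻¹ ≤ Real.exp (4 * ((((r : ℝ) + 1) ^ η - 1) / η)) := by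
    have h3 : ∏ p ∈ s, (1 - fη η p)⁻¹ ≤ ∏ p ∈ s, Real.exp (4 * (p : ℝ) ^ (η - 1)) := by
      apply Finset.prod_le_prod
      · intro p hp
        rw [hf]
        have := two_rpow_le hη2 (hsp p hp).two_le
        exact inv_nonneg.mpr (by linarith)
      · intro p hp
        rw [hf]
        exact inv_one_sub_le (Real.rpow_nonneg (Nat.cast_nonneg _) _)
          (two_rpow_le hη2 (hsp p hp).two_le)
    rw [← Real.exp_sum, ← Finset.mul_sum] at h3
    refine h3.trans (Real.exp_le_exp.mpr ?_)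
    have h4 := sum_rpow_le hη (by linarith) s.card s rfl (fun p hp => (hsp p hp).two_le)
    have h5 : (((s.card : ℝ) + 1) ^ η - 1) / η ≤ (((r : ℝ) + 1) ^ η - 1) / η := by
      apply div_le_div_of_nonneg_right _ hη.le
      have h6 : ((s.card : ℝ) + 1) ^ η ≤ ((r : ℝ) + 1) ^ η := by
        apply Real.rpow_le_rpow (by positivity) _ hη.le
        have : (s.card : ℝ) ≤ r := by exact_mod_cast hs
        linarith
      linarith
    linarith
  -- conclusion
  rcases Nat.eq_zero_or_pos N with rfl | hN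
  · have : comp s 0 = ∅ := by
      unfold comp
      rw [Finset.Icc_eq_empty (by omega), Finset.filter_empty]
    rw [this, Finset.card_empty, Nat.cast_zero]
    positivity
  have hN0 : (0 : ℝ) < N := by exact_mod_cast hN
  have h3 : ((comp s N).card : ℝ) ≤ (N : ℝ) ^ (1 - η) * ∑ m ∈ comp s N, (m : ℝ) ^ (η - 1) := by
    rw [Finset.mul_sum, Finset.card_eq_sum_ones, Nat.cast_sum]
    refine Finset.sum_le_sum fun m hm => ?_
    rw [comp, Finset.mem_filter, Finset.mem_Icc] at hm
    have hm0 : (0 : ℝ) < m := by exact_mod_cast hm.1.1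
    have h4 : (m : ℝ) ^ (η - 1) = ((m : ℝ) ^ (1 - η))⁻¹ := by
      rw [← Real.rpow_neg hm0.le]
      congr 1
      ring
    rw [Nat.cast_one, h4, ← div_eq_mul_inv, one_le_div (Real.rpow_pos_of_pos hm0 _)]
    exact Real.rpow_le_rpow hm0.le (by exact_mod_cast hm.1.2) (by linarith)
  refine h3.trans ?_
  exact mul_le_mul_of_nonneg_left (h1.trans h2) (Real.rpow_nonneg hN0.le _)

/-- the bound for `r ≤ exp (√(log N) / 3) - 1` -/
theorem comp_le_exp {N r : ℕ} (s : Finset ℕ) (hs : s.card ≤ r) (hsp : ∀ p ∈ s, p.Prime)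
    (hN : 64 ≤ Real.log N) (hr : (r : ℝ) + 1 ≤ Real.exp (Real.sqrt (Real.log N) / 3)) :
    ((comp s N).card : ℝ) ≤ N * Real.exp (-Real.sqrt (Real.log N)) := by
  set L := Real.sqrt (Real.log N) with hL
  have hL8 : 8 ≤ L := by
    rw [hL]
    apply Real.le_sqrt_of_sq_le
    norm_num
    exact hN
  have hLL : L * L = Real.log N := Real.mul_self_sqrt (by linarith)
  have hN0 : (0 : ℝ) < N := by
    rcases Nat.eq_zero_or_pos N with h0 | h0
    · rw [h0, Nat.cast_zero, Real.log_zero] at hN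
      norm_num at hN
    · exact_mod_cast h0
  have h1 := comp_le (N := N) s hs hsp (η := 4 / L) (by positivity) (by
    rw [div_le_div_iff₀ (by linarith) (by norm_num)]
    linarith)
  refine h1.trans ?_
  have h2 : (N : ℝ) ^ (1 - 4 / L) = N * Real.exp (-(4 * L)) := by
    rw [Real.rpow_sub hN0, Real.rpow_one, Real.rpow_def_of_pos hN0, ← hLL, div_eq_mul_inv,
      ← Real.exp_neg]
    congr 2
    have : L ≠ 0 := by linarith
    field_simp
  have h3 : ((r : ℝ) + 1) ^ (4 / L) ≤ 4 := by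
    have h4 : ((r : ℝ) + 1) ^ (4 / L) ≤ (Real.exp (L / 3)) ^ (4 / L) :=
      Real.rpow_le_rpow (by positivity) hr (by positivity)
    rw [← Real.exp_mul] at h4
    have h5 : L / 3 * (4 / L) = 4 / 3 := by
      have : L ≠ 0 := by linarith
      field_simp
    rw [h5] at h4
    refine h4.trans ?_
    have h6 : Real.exp (4 / 3) ≤ 4 := by
      have h7 : (Real.exp (4 / 3)) ^ 3 ≤ 4 ^ 3 := by
        rw [← Real.exp_nat_mul]
        norm_num
        have h8 : Real.exp 4 = (Real.exp 1) ^ 4 := by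
          rw [← Real.exp_nat_mul]; norm_num
        rw [h8]
        have h9 := Real.exp_one_lt_d9
        calc (Real.exp 1) ^ 4 ≤ (2.7182818286 : ℝ) ^ 4 :=
              pow_le_pow_left₀ (Real.exp_pos 1).le h9.le 4
          _ ≤ 64 := by norm_num
      exact le_of_pow_le_pow_left₀ (by norm_num) (by norm_num) h7
    exact h6
  have h4 : 4 * ((((r : ℝ) + 1) ^ (4 / L) - 1) / (4 / L)) ≤ 3 * L := by
    have h5 : 4 * ((((r : ℝ) + 1) ^ (4 / L) - 1) / (4 / L)) =
        (((r : ℝ) + 1) ^ (4 / L) - 1) * L := by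
      have : L ≠ 0 := by linarith
      field_simp
    rw [h5]
    have h6 : ((r : ℝ) + 1) ^ (4 / L) - 1 ≤ 3 := by linarith
    exact mul_le_mul_of_nonneg_right h6 (by linarith)
  rw [h2]
  calc N * Real.exp (-(4 * L)) * Real.exp (4 * ((((r : ℝ) + 1) ^ (4 / L) - 1) / (4 / L)))
      ≤ N * Real.exp (-(4 * L)) * Real.exp (3 * L) := by
        apply mul_le_mul_of_nonneg_left (Real.exp_le_exp.mpr h4)
        positivity
    _ = N * Real.exp (-L) := by
      rw [mul_assoc, ← Real.exp_add]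
      congr 2
      ring

end Pool.Agent.T6.H39.TR
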