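import Pool.Agent.HP778.Main

/-!
# Linear relations between several elements of a space with the hyperplane property

`V` is a space with the hyperplane property (`Pool.Agent.HP778.Hyper`), `b` an independent family of
`d` elements and `W` a finite dimensional space. The space `RW V b W` of the vectors `A` over `V` with
`∑ b_j A_j ∈ W` is finite dimensional. A relation `∑ x_i l_i + w = Q λ` with `x_i`, `Q` in the span of
`b` and `w ∈ W` gives an element of `RW V b W`, and the coordinates of this element yield nontrivial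
linear combinations of the `l_i` in a space which depends only on `b`, `W`.
-/

set_option autoImplicit false

namespace Pool.Agent.T6.H39.TR

open Module Finset
open Pool.Agent.HP778 (Hyper)

variable {k Ω : Type} [Field k] [Field Ω] [Algebra k Ω]

/-- the vectors over `V` with `∑ b i * A i ∈ W` -/
def RW (V : Submodule k Ω) {d : ℕ} (b : Fin d → Ω) (W : Submodule k Ω) :
    Submodule k (Fin d → Ω) where
  carrier := {A | (∀ i, A i ∈ V) ∧ ∑ i, b i * A i ∈ W}
  add_mem' := by
    rintro A B ⟨hA, hA'⟩ ⟨hB, hB'⟩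
    refine ⟨fun i => V.add_mem (hA i) (hB i), ?_⟩
    simp only [Pi.add_apply, mul_add, Finset.sum_add_distrib]
    exact W.add_mem hA' hB'
  zero_mem' := by
    refine ⟨fun i => V.zero_mem, ?_⟩
    simp
  smul_mem' := by
    rintro a A ⟨hA, hA'⟩
    refine ⟨fun i => V.smul_mem a (hA i), ?_⟩
    have : ∑ i, b i * (a • A) i = a • ∑ i, b i * A i := by
      rw [Finset.smul_sum]
      refine Finset.sum_congr rfl fun i _ => ?_
      rw [Pi.smul_apply, mul_smul_comm]
    rw [this]
    exact W.smul_mem a hA'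

theorem mem_RW {V : Submodule k Ω} {d : ℕ} {b : Fin d → Ω} {W : Submodule k Ω} {A : Fin d → Ω} :
    A ∈ RW V b W ↔ (∀ i, A i ∈ V) ∧ ∑ i, b i * A i ∈ W := Iff.rfl

theorem RW_le {V : Submodule k Ω} (hV : Hyper V) {d : ℕ} {b : Fin d → Ω}
    (hb : LinearIndependent k b) (W : Submodule k Ω) [FiniteDimensional k W]
    (F : Submodule k (Fin d → Ω)) [FiniteDimensional k F] (hF : F ≤ RW V b W) :
    finrank k F ≤ d * (d - 1) + finrank k W := by
  let φ : F →ₗ[k] W := {
    toFun := fun A => ⟨∑ i, b i * (A : Fin d → Ω) i, (hF A.2).2⟩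
    map_add' := by
      intro A B
      apply Subtype.ext
      simp only [Submodule.coe_add, Pi.add_apply, mul_add, Finset.sum_add_distrib]
    map_smul' := by
      intro a A
      apply Subtype.ext
      simp only [Submodule.coe_smul, Pi.smul_apply, RingHom.id_apply, mul_smul_comm]
      rw [Finset.smul_sum] }
  have h1 := LinearMap.finrank_range_add_finrank_ker φ
  have h2 : finrank k (LinearMap.range φ) ≤ finrank k W := Submodule.finrank_le _
  have h3 : finrank k ((LinearMap.ker φ).map F.subtype) = finrank k (LinearMap.ker φ) :=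
    (Submodule.equivMapOfInjective F.subtype F.injective_subtype (LinearMap.ker φ)).finrank_eq.symm
  have h4 : finrank k ((LinearMap.ker φ).map F.subtype) ≤ d * (d - 1) := by
    apply hV.finrank_le b hb
    rintro _ ⟨A, hA, rfl⟩
    refine ⟨(hF A.2).1, ?_⟩
    have h5 : φ A = 0 := LinearMap.mem_ker.mp hA
    exact congrArg (fun z : W => (z : Ω)) h5
  omega

theorem RW_fd {V : Submodule k Ω} (hV : Hyper V) {d : ℕ} {b : Fin d → Ω}
    (hb : LinearIndependent k b) (W : Submodule k Ω) [FiniteDimensional k W] :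
    FiniteDimensional k (RW V b W) ∧ finrank k (RW V b W) ≤ d * (d - 1) + finrank k W := by
  have h1 : Module.rank k (RW V b W) ≤ (d * (d - 1) + finrank k W : ℕ) := by
    apply rank_le
    intro s hs
    have h2 : LinearIndependent k (fun i : s => (((i : RW V b W)) : Fin d → Ω)) :=
      hs.map' (RW V b W).subtype (RW V b W).ker_subtype
    have h3 := finrank_span_eq_card h2
    rw [Fintype.card_coe] at h3
    rw [← h3]
    have : FiniteDimensional k (Submodule.span k
        (Set.range (fun i : s => (((i : RW V b W)) : Fin d → Ω)))) :=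
      FiniteDimensional.span_of_finite k (Set.finite_range _)
    apply RW_le hV hb W
    rw [Submodule.span_le]
    rintro _ ⟨i, rfl⟩
    exact (i : RW V b W).2
  refine ⟨?_, finrank_le_of_rank_le h1⟩
  exact Module.rank_lt_aleph0_iff.mp (lt_of_le_of_lt h1 (Cardinal.natCast_lt_aleph0))

/-- the functional `A ↦ A j - (q j / q l) A l` -/
def fun1 {d : ℕ} (q : Fin d → k) (l j : Fin d) : (Fin d → Ω) →ₗ[k] Ω :=
  LinearMap.proj j - (q j / q l) • LinearMap.proj l

theorem fun1_apply {d : ℕ} (q : Fin d → k) (l j : Fin d) (A : Fin d → Ω) :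
    fun1 q l j A = A j - (q j / q l) • A l := rfl

theorem expand {d : ℕ} {b : Fin d → Ω} (c : Fin d → k) (x l : Ω) (hx : x = ∑ j, c j • b j) :
    x * l = ∑ j, b j * (c j • l) := by
  rw [hx, Finset.sum_mul]
  refine Finset.sum_congr rfl fun j _ => ?_
  rw [smul_mul_assoc, mul_smul_comm]

/-- The vector of a relation. -/
theorem rel_mem {V : Submodule k Ω} {d : ℕ} {b : Fin d → Ω} {W : Submodule k Ω} {κ : Type}
    [Fintype κ] {x l : κ → Ω} {c : κ → Fin d → k} {Q lam w : Ω} {q : Fin d → k}
    (hl : ∀ i, l i ∈ V) (hlam : lam ∈ V) (hw : w ∈ W) (hx : ∀ i, x i = ∑ j, c i j • b j)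
    (hQ : Q = ∑ j, q j • b j) (hrel : ∑ i, x i * l i + w = Q * lam) :
    (fun j => ∑ i, c i j • l i - q j • lam) ∈ RW V b W := by
  refine ⟨fun j => V.sub_mem (V.sum_mem fun i _ => V.smul_mem _ (hl i)) (V.smul_mem _ hlam), ?_⟩
  have h1 : ∑ j, b j * (∑ i, c i j • l i - q j • lam) = ∑ i, x i * l i - Q * lam := by
    simp only [mul_sub, Finset.mul_sum, Finset.sum_sub_distrib]
    rw [Finset.sum_comm, ← expand q Q lam hQ]
    congr 1
    refine Finset.sum_congr rfl fun i _ => ?_
    rw [← expand (c i) (x i) (l i) (hx i)]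
  change ∑ j, b j * (∑ i, c i j • l i - q j • lam) ∈ W
  rw [h1]
  have h2 : ∑ i, x i * l i - Q * lam = -w := by
    rw [← hrel]; ring
  rw [h2]
  exact W.neg_mem hw

/-- a nontrivial linear combination of the `l i` is in `E` -/
def Dep (E : Submodule k Ω) {κ : Type} [Fintype κ] (l : κ → Ω) : Prop :=
  ∃ c : κ → k, c ≠ 0 ∧ ∑ i, c i • l i ∈ E

/-- **Constant denominator.** `∑ x_i l_i + w ∈ V` where the `x_i` are in the span of `b`, not all in
`k`, and `1 = ∑ q_j b_j`, `q_{l₀} ≠ 0`. -/
theorem dep_one {V : Submodule k Ω} {d : ℕ} {b : Fin d → Ω}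
    {W : Submodule k Ω} {κ : Type} [Fintype κ] {x l : κ → Ω} {w : Ω} {q : Fin d → k}
    (hq : ∑ j, q j • b j = 1) {l₀ : Fin d} (hl₀ : q l₀ ≠ 0) (hl : ∀ i, l i ∈ V) (hw : w ∈ W)
    (hx : ∀ i, x i ∈ Submodule.span k (Set.range b))
    (hxk : ∃ i, ∀ a : k, algebraMap k Ω a ≠ x i) (hrel : ∑ i, x i * l i + w ∈ V) :
    ∃ j, j ≠ l₀ ∧ Dep ((RW V b W).map (fun1 q l₀ j)) l := by
  classical
  choose c hc using fun i => (Submodule.mem_span_range_iff_exists_fun k).mp (hx i)
  have hc' : ∀ i, x i = ∑ j, c i j • b j := fun i => (hc i).symm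
  have hmem := rel_mem (V := V) (b := b) (W := W) (Q := 1) hl hrel hw hc' hq.symm
    (by rw [one_mul])
  obtain ⟨i₀, hi₀⟩ := hxk
  have hex : ∃ j, c i₀ j - (q j / q l₀) * c i₀ l₀ ≠ 0 := by
    by_contra hcon
    push Not at hcon
    apply hi₀ (c i₀ l₀ / q l₀)
    have h1 : x i₀ = (c i₀ l₀ / q l₀) • ∑ j, q j • b j := by
      rw [hc' i₀, Finset.smul_sum]
      refine Finset.sum_congr rfl fun j _ => ?_
      rw [smul_smul]
      congr 1
      have := hcon j
      rw [sub_eq_zero] at this
      rw [this]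
      ring
    rw [h1, hq, Algebra.smul_def, mul_one]
  obtain ⟨j, hj⟩ := hex
  refine ⟨j, ?_, fun i => c i j - (q j / q l₀) * c i l₀, ?_, ?_⟩
  · rintro rfl
    apply hj
    field_simp
    ring
  · intro h0
    exact hj (congrFun h0 i₀)
  · refine ⟨_, hmem, ?_⟩
    rw [fun1_apply]
    have h2 : ∀ (y : Ω), (q j) • y - (q j / q l₀) • (q l₀) • y = 0 := by
      intro y
      rw [smul_smul, div_mul_cancel₀ _ hl₀, sub_self]
    have h3 : ∑ i, (c i j - q j / q l₀ * c i l₀) • l i =
        ∑ i, c i j • l i - (q j / q l₀) • ∑ i, c i l₀ • l i := by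
      rw [Finset.smul_sum, ← Finset.sum_sub_distrib]
      refine Finset.sum_congr rfl fun i _ => ?_
      rw [sub_smul, smul_smul]
    rw [h3, smul_sub]
    have h4 := h2 (∑ i, x i * l i + w)
    linear_combination (-1 : Ω) * h4

/-- **General denominator.** `∑ x_i l_i + w = Q λ`, where `x_i`, `Q` are in the span of `b`, not all
`x_i` are in `k Q`. -/
theorem dep_gen {V : Submodule k Ω} {d : ℕ} {b : Fin d → Ω}
    {W : Submodule k Ω} {κ : Type} [Fintype κ] {x l : κ → Ω} {w Q lam : Ω}
    (hQ : Q ∈ Submodule.span k (Set.range b)) (hQ0 : Q ≠ 0) (hl : ∀ i, l i ∈ V) (hlam : lam ∈ V)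
    (hw : w ∈ W) (hx : ∀ i, x i ∈ Submodule.span k (Set.range b))
    (hxk : ∃ i, ∀ a : k, algebraMap k Ω a * Q ≠ x i) (hrel : ∑ i, x i * l i + w = Q * lam) :
    ∃ j j' : Fin d, j < j' ∧ Dep ((RW V b W).map (LinearMap.proj j) ⊔
      (RW V b W).map (LinearMap.proj j')) l := by
  classical
  choose c hc using fun i => (Submodule.mem_span_range_iff_exists_fun k).mp (hx i)
  have hc' : ∀ i, x i = ∑ j, c i j • b j := fun i => (hc i).symm
  obtain ⟨q, hq⟩ := (Submodule.mem_span_range_iff_exists_fun k).mp hQ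
  have hmem := rel_mem (V := V) (b := b) (W := W) hl hlam hw hc' hq.symm hrel
  obtain ⟨l₀, hl₀⟩ : ∃ l₀, q l₀ ≠ 0 := by
    by_contra hcon
    push Not at hcon
    apply hQ0
    rw [← hq]
    exact Finset.sum_eq_zero fun j _ => by rw [hcon j, zero_smul]
  obtain ⟨i₀, hi₀⟩ := hxk
  have hex : ∃ j, q l₀ * c i₀ j - q j * c i₀ l₀ ≠ 0 := by
    by_contra hcon
    push Not at hcon
    apply hi₀ (c i₀ l₀ / q l₀)
    rw [← hq, hc' i₀, Finset.mul_sum]
    refine Finset.sum_congr rfl fun j _ => ?_
    have := hcon j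
    rw [sub_eq_zero] at this
    rw [← Algebra.smul_def, smul_smul]
    congr 1
    field_simp
    rw [mul_comm, ← this]
  obtain ⟨j, hj⟩ := hex
  have key : ∀ u v : Fin d, q u * c i₀ v - q v * c i₀ u ≠ 0 →
      Dep ((RW V b W).map (LinearMap.proj v) ⊔ (RW V b W).map (LinearMap.proj u)) l := by
    intro u v huv
    refine ⟨fun i => q u * c i v - q v * c i u, fun h0 => huv (congrFun h0 i₀), ?_⟩
    have h3 : ∑ i, (q u * c i v - q v * c i u) • l i =
        q u • (∑ i, c i v • l i - q v • lam) - q v • (∑ i, c i u • l i - q u • lam) := by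
      have h5 : ∑ i, (q u * c i v - q v * c i u) • l i =
          q u • ∑ i, c i v • l i - q v • ∑ i, c i u • l i := by
        rw [Finset.smul_sum, Finset.smul_sum, ← Finset.sum_sub_distrib]
        refine Finset.sum_congr rfl fun i _ => ?_
        rw [sub_smul, smul_smul, smul_smul]
      rw [h5, smul_sub, smul_sub, smul_smul, smul_smul, mul_comm (q v) (q u)]
      abel
    rw [h3]
    refine Submodule.sub_mem _ (Submodule.smul_mem _ _ ?_) (Submodule.smul_mem _ _ ?_)
    · exact Submodule.mem_sup_left ⟨_, hmem, rfl⟩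
    · exact Submodule.mem_sup_right ⟨_, hmem, rfl⟩
  have hne : j ≠ l₀ := by
    rintro rfl
    apply hj
    ring
  rcases lt_or_gt_of_ne hne with hlt | hlt
  · exact ⟨j, l₀, hlt, key l₀ j hj⟩
  · exact ⟨l₀, j, hlt, key j l₀ (fun h => hj (by linear_combination -h))⟩

/-! ### Counting tuples of integers -/

open Pool.Agent.H301R2.SSE (QB mem_QB Lt Lt_mul Lt_alg Lt_log Lt_one)

/-- the logarithms of a tuple -/
noncomputable def lg {κ : Type} (n : κ → ℕ) : κ → ℂ := fun i => ((Real.log (n i) : ℝ) : ℂ)

open Classical in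
/-- the tuples of integers between `1` and `N` with property `Q` -/
noncomputable def tup (κ : Type) [Fintype κ] (N : ℕ) (Q : (κ → ℕ) → Prop) : Finset (κ → ℕ) :=
  (Fintype.piFinset fun _ => Finset.Icc 1 N).filter Q

theorem mem_tup {κ : Type} [Fintype κ] {N : ℕ} {Q : (κ → ℕ) → Prop} {n : κ → ℕ} :
    n ∈ tup κ N Q ↔ (∀ i, 1 ≤ n i ∧ n i ≤ N) ∧ Q n := by
  classical
  unfold tup
  rw [Finset.mem_filter, Fintype.mem_piFinset]
  simp only [Finset.mem_Icc]

theorem fd_range {κ : Type} [Finite κ] (f : κ → ℂ) :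
    FiniteDimensional QB (Submodule.span QB (Set.range f)) :=
  FiniteDimensional.span_of_finite _ (Set.finite_range _)

theorem finrank_sup_le (S T : Submodule QB ℂ) [FiniteDimensional QB S] [FiniteDimensional QB T] :
    finrank QB ((S ⊔ T : Submodule QB ℂ)) ≤ finrank QB S + finrank QB T :=
  Submodule.finrank_add_le_finrank_add_finrank S T

/-- The number of the tuples which are dependent modulo a space `E ∋ 1` of dimension at most
`r + 1`. -/
theorem card_dep {κ : Type} [Fintype κ] (E : Submodule QB ℂ) [FiniteDimensional QB E]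
    (h1 : (1 : ℂ) ∈ E) {r : ℕ} (hE : finrank QB E ≤ r + 1) (N : ℕ) :
    (tup κ N (fun n => Dep E (lg n))).card ≤
      Fintype.card κ * (N ^ (Fintype.card κ - 1) *
        (Nat.log 2 N + 1) ^ (r + (Fintype.card κ - 1))) := by
  classical
  -- the tuples with a nonzero coefficient in place `s`
  let T : κ → Finset (κ → ℕ) := fun s => tup κ N (fun n =>
    lg n s ∈ E ⊔ Submodule.span QB (Set.range fun i : {i // i ≠ s} => lg n i))
  have hsub : tup κ N (fun n => Dep E (lg n)) ⊆ Finset.univ.biUnion T := by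
    intro n hn
    rw [mem_tup] at hn
    obtain ⟨hnN, c, hc0, hc⟩ := hn
    obtain ⟨s, hs⟩ := Function.ne_iff.mp hc0
    rw [Finset.mem_biUnion]
    refine ⟨s, Finset.mem_univ _, ?_⟩
    rw [mem_tup]
    refine ⟨hnN, ?_⟩
    have hs0 : c s ≠ 0 := hs
    have h2 : lg n s = (c s)⁻¹ • (∑ i, c i • lg n i) -
        (c s)⁻¹ • ∑ i ∈ Finset.univ.erase s, c i • lg n i := by
      rw [← Finset.add_sum_erase Finset.univ _ (Finset.mem_univ s), smul_add, add_sub_cancel_right,
        smul_smul, inv_mul_cancel₀ hs0, one_smul]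
    rw [h2]
    refine Submodule.sub_mem _ (Submodule.mem_sup_left (Submodule.smul_mem _ _ hc))
      (Submodule.smul_mem _ _ (Submodule.sum_mem _ fun i hi => Submodule.smul_mem _ _ ?_))
    exact Submodule.mem_sup_right (Submodule.subset_span
      ⟨⟨i, (Finset.mem_erase.mp hi).1⟩, rfl⟩)
  have hT : ∀ s, (T s).card ≤ N ^ (Fintype.card κ - 1) *
      (Nat.log 2 N + 1) ^ (r + (Fintype.card κ - 1)) := by
    intro s
    have hcs : Fintype.card {i // i ≠ s} = Fintype.card κ - 1 := by
      rw [Fintype.card_subtype_compl, Fintype.card_subtype_eq]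
    let f : (κ → ℕ) → ({i // i ≠ s} → ℕ) := fun n i => n i
    have h2 := Finset.card_le_mul_card_image_of_maps_to (f := f) (s := T s)
      (t := Fintype.piFinset fun _ => Finset.Icc 1 N) (by
        intro n hn
        rw [mem_tup] at hn
        rw [Fintype.mem_piFinset]
        intro i
        exact Finset.mem_Icc.mpr (hn.1 i))
      ((Nat.log 2 N + 1) ^ (r + (Fintype.card κ - 1))) (by
        intro b _
        have hfd := fd_range (fun i : {i // i ≠ s} => ((Real.log (b i) : ℝ) : ℂ))
        have h3 := Pool.Agent.HP778.count_of (N := N) (r := r + (Fintype.card κ - 1))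
          (fun m => ((Real.log m : ℝ) : ℂ) ∈ E ⊔ Submodule.span QB
            (Set.range fun i : {i // i ≠ s} => ((Real.log (b i) : ℝ) : ℂ))) (by
          intro m n hn halg hli
          have h4 := Pool.Agent.HP778.indep_cons halg hli
          have h5 : m + 1 ≤ finrank QB ((E ⊔ Submodule.span QB
            (Set.range fun i : {i // i ≠ s} => ((Real.log (b i) : ℝ) : ℂ)) :
              Submodule QB ℂ)) := by
            have h6 : Fintype.card (Fin (m + 1)) ≤ finrank QB ((E ⊔ Submodule.span QB
                (Set.range fun i : {i // i ≠ s} => ((Real.log (b i) : ℝ) : ℂ)) :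
                  Submodule QB ℂ)) := by
              have : FiniteDimensional QB ((E ⊔ Submodule.span QB
                  (Set.range fun i : {i // i ≠ s} => ((Real.log (b i) : ℝ) : ℂ)) :
                    Submodule QB ℂ)) := inferInstance
              have hmem : ∀ j : Fin (m + 1), (finSuccEquiv m j).elim (1 : ℂ)
                  (fun i => ((Real.log (n i) : ℝ) : ℂ)) ∈ E ⊔ Submodule.span QB
                    (Set.range fun i : {i // i ≠ s} => ((Real.log (b i) : ℝ) : ℂ)) := by
                intro j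
                cases finSuccEquiv m j with
                | none => exact Submodule.mem_sup_left h1
                | some i => exact (hn i).2
              have h7 : LinearIndependent QB (fun j : Fin (m + 1) =>
                  (⟨_, hmem j⟩ : (E ⊔ Submodule.span QB (Set.range
                    fun i : {i // i ≠ s} => ((Real.log (b i) : ℝ) : ℂ)) : Submodule QB ℂ))) :=
                LinearIndependent.of_comp (Submodule.subtype _) h4
              exact h7.fintype_card_le_finrank
            rwa [Fintype.card_fin] at h6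
          have h6 : finrank QB (Submodule.span QB
              (Set.range fun i : {i // i ≠ s} => ((Real.log (b i) : ℝ) : ℂ))) ≤
                Fintype.card κ - 1 := by
            rw [← hcs]
            exact finrank_range_le_card _
          have h7 := finrank_sup_le E (Submodule.span QB
              (Set.range fun i : {i // i ≠ s} => ((Real.log (b i) : ℝ) : ℂ)))
          omega)
        refine le_trans ?_ h3
        refine Finset.card_le_card_of_injOn (fun n => n s) ?_ ?_
        · intro n hn
          rw [Finset.mem_coe, Finset.mem_filter] at hn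
          obtain ⟨hnT, hnb⟩ := hn
          rw [mem_tup] at hnT
          rw [Finset.mem_coe, Finset.mem_filter, Finset.mem_Icc]
          refine ⟨hnT.1 s, ?_⟩
          have h8 : (fun i : {i // i ≠ s} => ((Real.log (b i) : ℝ) : ℂ)) =
              fun i : {i // i ≠ s} => lg n i := by
            rw [← hnb]
            rfl
          rw [h8]
          exact hnT.2
        · intro n hn n' hn' heq
          rw [Finset.mem_coe, Finset.mem_filter] at hn hn'
          funext i
          by_cases hi : i = s
          · rw [hi]; exact heq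
          · exact congrFun (hn.2.trans hn'.2.symm) ⟨i, hi⟩)
    rw [Fintype.card_piFinset, Finset.prod_const, Nat.card_Icc, Finset.card_univ, hcs,
      Nat.add_sub_cancel] at h2
    rwa [mul_comm] at h2
  calc (tup κ N (fun n => Dep E (lg n))).card ≤ (Finset.univ.biUnion T).card :=
        Finset.card_le_card hsub
    _ ≤ ∑ s, (T s).card := Finset.card_biUnion_le
    _ ≤ ∑ _s : κ, (N ^ (Fintype.card κ - 1) *
      (Nat.log 2 N + 1) ^ (r + (Fintype.card κ - 1))) := Finset.sum_le_sum fun s _ => hT s
    _ = _ := by rw [Finset.sum_const, Finset.card_univ, smul_eq_mul]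

/-- The same for a finite family of spaces. -/
theorem card_deps {κ α : Type} [Fintype κ] (S : Finset α) (E : α → Submodule QB ℂ)
    (hfd : ∀ a ∈ S, FiniteDimensional QB (E a)) {r : ℕ}
    (hE : ∀ a ∈ S, finrank QB ((E a ⊔ Submodule.span QB {(1 : ℂ)} : Submodule QB ℂ)) ≤ r + 1)
    (N : ℕ) (Q : (κ → ℕ) → Prop)
    (hQ : ∀ n : κ → ℕ, (∀ i, 1 ≤ n i) → Q n → ∃ a ∈ S, Dep (E a) (lg n)) :
    (tup κ N Q).card ≤ S.card * (Fintype.card κ * (N ^ (Fintype.card κ - 1) *
        (Nat.log 2 N + 1) ^ (r + (Fintype.card κ - 1)))) := by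
  classical
  have hsub : tup κ N Q ⊆ S.biUnion fun a =>
      tup κ N (fun n => Dep (E a ⊔ Submodule.span QB {(1 : ℂ)}) (lg n)) := by
    intro n hn
    rw [mem_tup] at hn
    obtain ⟨a, ha, c, hc0, hc⟩ := hQ n (fun i => (hn.1 i).1) hn.2
    rw [Finset.mem_biUnion]
    refine ⟨a, ha, ?_⟩
    rw [mem_tup]
    exact ⟨hn.1, c, hc0, Submodule.mem_sup_left hc⟩
  calc (tup κ N Q).card ≤ _ := Finset.card_le_card hsub
    _ ≤ ∑ a ∈ S, (tup κ N (fun n => Dep (E a ⊔ Submodule.span QB {(1 : ℂ)}) (lg n))).card :=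
      Finset.card_biUnion_le
    _ ≤ ∑ _a ∈ S, (Fintype.card κ * (N ^ (Fintype.card κ - 1) *
        (Nat.log 2 N + 1) ^ (r + (Fintype.card κ - 1)))) := by
      refine Finset.sum_le_sum fun a ha => ?_
      have := hfd a ha
      exact card_dep _ (Submodule.mem_sup_right (Submodule.mem_span_singleton_self _)) (hE a ha) N
    _ = _ := by rw [Finset.sum_const, smul_eq_mul]

end Pool.Agent.T6.H39.TR
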